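import Pool.Agent.Y958.SP.Crit2
import Pool.Agent.Q26.TA.TA2

set_option autoImplicit false

/-! Divisor correlations for the elements of automatic sets: a law with few large frequencies. -/

namespace Pool.Agent.Q26.DS
open Finset
open Pool.Agent.W93.DG
open Pool.Agent.W93.AU (Law)
open Pool.Agent.H807R2.Dav
open Pool.Agent.TH212.DV
open Pool.Agent.Y958.SP

lemma ee_lip (x y : ℝ) : ‖ee x - ee y‖ ≤ 8 * |x - y| := by
  have h1 : ee x - ee y = ee y * (ee (x - y) - 1) := by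
    have : ee x = ee y * ee (x - y) := by
      rw [← ee_add]
      congr 1
      ring
    rw [this]
    ring
  rw [h1, norm_mul, norm_ee, one_mul, ee_eq']
  refine (Real.norm_exp_I_mul_ofReal_sub_one_le).trans ?_
  rw [Real.norm_eq_abs, abs_mul, abs_of_pos (by positivity)]
  have := Real.pi_lt_d2
  nlinarith [abs_nonneg (x - y)]

lemma ph_lip {ι : Type} [Fintype ι] (w : ι → ℝ) (v : ι → ℤ) (hw : ∀ i, 0 ≤ w i) (hw1 : ∑ i, w i ≤ 1) (B : ℝ) (hB : 0 ≤ B)
    (hv : ∀ i, |(v i : ℝ)| ≤ B) (a c : ℝ) : ‖ph w v a‖ ≤ ‖ph w v c‖ + 8 * B * |a - c| := by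
  have h1 : ‖ph w v a - ph w v c‖ ≤ 8 * B * |a - c| := by
    unfold ph
    rw [← sum_sub_distrib]
    refine (norm_sum_le _ _).trans ?_
    have h2 : ∀ i ∈ (univ : Finset ι), ‖(w i : ℂ) * ee ((v i : ℝ) * a) - (w i : ℂ) * ee ((v i : ℝ) * c)‖ ≤
        w i * (8 * B * |a - c|) := by
      intro i _
      rw [← mul_sub, norm_mul, Complex.norm_real, Real.norm_eq_abs, abs_of_nonneg (hw i)]
      apply mul_le_mul_of_nonneg_left _ (hw i)
      refine (ee_lip _ _).trans ?_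
      rw [← mul_sub, abs_mul]
      have := mul_le_mul_of_nonneg_right (hv i) (abs_nonneg (a - c))
      nlinarith
    refine (sum_le_sum h2).trans ?_
    rw [← sum_mul]
    have : 0 ≤ 8 * B * |a - c| := by positivity
    nlinarith
  have h3 := norm_sub_norm_le (ph w v a) (ph w v c)
  linarith

/-- the preimages of a set under the multiplication by `F` modulo `M` -/
lemma card_pre (F M : ℕ) (hF : 1 ≤ F) (_hM : 1 ≤ M) (S : Finset ℕ) :
    ((range M).filter (fun t => (F * t) % M ∈ S)).card ≤ F * S.card := by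
  have hinj : Set.InjOn (fun t => ((F * t) % M, (F * t) / M)) ((range M).filter (fun t => (F * t) % M ∈ S)) := by
    intro t _ t' _ h
    simp only [Prod.mk.injEq] at h
    have e1 := Nat.mod_add_div (F * t) M
    have e2 := Nat.mod_add_div (F * t') M
    rw [h.1, h.2] at e1
    exact Nat.eq_of_mul_eq_mul_left hF (e1.symm.trans e2)
  have hsub : ((range M).filter (fun t => (F * t) % M ∈ S)).image (fun t => ((F * t) % M, (F * t) / M)) ⊆ S ×ˢ range F := by
    intro x hx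
    rw [mem_image] at hx
    obtain ⟨t, ht, rfl⟩ := hx
    rw [mem_filter, mem_range] at ht
    refine mem_product.2 ⟨ht.2, mem_range.2 ?_⟩
    exact Nat.div_lt_of_lt_mul (by
      rw [mul_comm M F]
      exact Nat.mul_lt_mul_of_pos_left ht.1 hF)
  rw [← card_image_of_injOn hinj]
  refine (card_le_card hsub).trans ?_
  rw [card_product, card_range, mul_comm]


/-- the large frequencies of a random integer with a law are few -/
theorem few_of_law (b : ℕ) (hb : 2 ≤ b) (D F V : ℕ) (hF : 1 ≤ F) (θ : ℝ) (hθ : 0 < θ) (Cb : ℕ) :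
    ∃ K₀ : ℕ, ∀ K : ℕ, K₀ ≤ K → ∀ N B : ℕ, 1 ≤ N → b ^ K ≤ N * K ^ Cb → 8 * B * N * K ^ V ≤ b ^ (K + 1) → N ≤ b ^ (K + 1) →
    ∀ (ι : Type) [Fintype ι] (w : ι → ℝ) (v : ι → ℤ), (∀ i, |v i| ≤ B * N) → Law b F D V K (univ : Finset ι) w v →
      FewLarge w v N (2 / (K : ℝ) ^ V) ((N : ℝ) ^ θ) := by
  classical
  obtain ⟨E, hE⟩ := exists_nat_ge (2 / θ)
  obtain ⟨R, hR, hent⟩ := ent b hb (E + 1) (by omega)
  -- growth
  obtain ⟨n1, h1⟩ := ev_pow (Cb + 1) (F * b ^ 2 * 3 ^ (Cb + 1)) (θ / 2) (by linarith)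
  have hg1 : ∃ K1 : ℕ, ∀ K : ℕ, K1 ≤ K → D * (Nat.log b K + 1) * R ≤ 2 * K := by
    have h0 : Filter.Tendsto (fun K : ℕ => ((D * R : ℕ) : ℝ) * (Real.log K / Real.log b + 1) / K) Filter.atTop (nhds 0) := by
      have e1 : Filter.Tendsto (fun K : ℕ => Real.log (K : ℝ) / (K : ℝ)) Filter.atTop (nhds 0) :=
        (Real.isLittleO_log_id_atTop.tendsto_div_nhds_zero).comp tendsto_natCast_atTop_atTop
      have e2 : Filter.Tendsto (fun K : ℕ => 1 / (K : ℝ)) Filter.atTop (nhds 0) := tendsto_one_div_atTop_nhds_zero_nat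
      have e3 := ((e1.div_const (Real.log b)).add e2).const_mul ((D * R : ℕ) : ℝ)
      rw [zero_div, add_zero, mul_zero] at e3
      refine e3.congr (fun K => ?_)
      ring
    have h2 := (h0.eventually (gt_mem_nhds (show (0 : ℝ) < 1 by norm_num))).and (Filter.eventually_ge_atTop 1)
    obtain ⟨K1, hK1⟩ := Filter.eventually_atTop.1 h2
    refine ⟨K1, fun K hK => ?_⟩
    obtain ⟨h3, h4⟩ := hK1 K hK
    have hK0 : (0 : ℝ) < K := by exact_mod_cast h4
    rw [div_lt_one hK0] at h3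
    have h5 : (Nat.log b K : ℝ) ≤ Real.log K / Real.log b := by
      rw [le_div_iff₀ (Real.log_pos (by exact_mod_cast hb)), ← Real.log_pow]
      apply Real.log_le_log (by positivity)
      exact_mod_cast Nat.pow_log_le_self b (by omega)
    have h6 : ((D * (Nat.log b K + 1) * R : ℕ) : ℝ) ≤ K := by
      push_cast at h3 ⊢
      have : (0 : ℝ) ≤ D * R := by positivity
      nlinarith
    have h7 : D * (Nat.log b K + 1) * R ≤ K := by exact_mod_cast h6
    omega
  have hg2 : ∃ K2 : ℕ, ∀ K : ℕ, K2 ≤ K → K ^ (2 * Cb) ≤ b ^ K := by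
    obtain ⟨K2, hK2⟩ := Filter.eventually_atTop.1 ((tendsto_pow_const_div_const_pow_of_one_lt (2 * Cb)
      (show (1 : ℝ) < b by exact_mod_cast hb)).eventually (gt_mem_nhds (show (0 : ℝ) < 1 by norm_num)))
    refine ⟨K2, fun K hK => ?_⟩
    have h3 := hK2 K hK
    rw [div_lt_one (by positivity)] at h3
    exact_mod_cast h3.le
  obtain ⟨K1, hK1⟩ := hg1
  obtain ⟨K2, hK2⟩ := hg2
  refine ⟨K1 + K2 + 3 * n1 + 1, fun K hK N B hN hbK hM hNM ι _ w v hv hlaw => ?_⟩
  have hT := hK1 K (by omega)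
  have hKb := hK2 K (by omega)
  obtain ⟨M, hMdef⟩ : ∃ M, M = b ^ (K + 1) := ⟨_, rfl⟩
  have hM1 : 1 ≤ M := by rw [hMdef]; exact Nat.one_le_pow _ _ (by omega)
  have hM0 : (0 : ℝ) < M := by exact_mod_cast hM1
  have hN0 : (0 : ℝ) < N := by exact_mod_cast hN
  have hK1' : 1 ≤ K := by omega
  have hK0 : (0 : ℝ) < K := by exact_mod_cast hK1'
  have hw : ∀ i, 0 ≤ w i := fun i => hlaw.nonneg i (mem_univ i)
  have hvr : ∀ i, |(v i : ℝ)| ≤ B * N := fun i => by
    have := hv i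
    have h2 : ((|v i| : ℤ) : ℝ) ≤ ((B * N : ℤ) : ℝ) := by exact_mod_cast this
    push_cast at h2
    exact h2
  intro S hS hsep
  -- the map to the grid
  have hmem : ∀ a ∈ S, ⌊a * M⌋₊ ∈ (range M).filter (fun t => (F * t) % M ∈ US b K (D * (Nat.log b K + 1))) := by
    intro a ha
    obtain ⟨ha0, ha1, har⟩ := hS a ha
    have hfl : (⌊a * M⌋₊ : ℝ) ≤ a * M := Nat.floor_le (by positivity)
    have hfl2 : a * M < ⌊a * M⌋₊ + 1 := Nat.lt_floor_add_one _
    have hlt : ⌊a * M⌋₊ < M := by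
      rw [Nat.floor_lt (by positivity)]
      nlinarith
    refine mem_filter.2 ⟨mem_range.2 hlt, ?_⟩
    by_contra hcon
    unfold US at hcon
    rw [mem_filter, not_and] at hcon
    have h2 := hcon (mem_range.2 (by rw [← hMdef]; exact Nat.mod_lt _ hM1))
    push Not at h2
    have h3 := hlaw.char ⌊a * M⌋₊ (by rw [← hMdef]; exact h2.le)
    rw [← hMdef] at h3
    have h4 := ph_lip w v hw hlaw.le_one (B * N) (by positivity) hvr a (⌊a * M⌋₊ / M)
    have h5 : |a - ⌊a * M⌋₊ / M| ≤ 1 / M := by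
      rw [abs_le]
      constructor
      · rw [neg_le_sub_iff_le_add, ← sub_le_iff_le_add]
        have e1 : (⌊a * M⌋₊ : ℝ) / M ≤ a := by rw [div_le_iff₀ hM0]; exact hfl
        have e2 : 0 < 1 / (M : ℝ) := by positivity
        linarith
      · rw [sub_le_iff_le_add, ← add_div, le_div_iff₀ hM0]
        linarith
    have h6 : 8 * (B * N : ℝ) * |a - ⌊a * M⌋₊ / M| ≤ 1 / (K : ℝ) ^ V := by
      refine (mul_le_mul_of_nonneg_left h5 (by positivity)).trans ?_
      rw [mul_one_div, div_le_div_iff₀ hM0 (by positivity), one_mul]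
      have : ((8 * B * N * K ^ V : ℕ) : ℝ) ≤ ((M : ℕ) : ℝ) := by
        rw [hMdef]
        exact_mod_cast hM
      push_cast at this
      linarith
    have h7 : ‖ph w v (⌊a * M⌋₊ / M)‖ ≤ 1 / (K : ℝ) ^ V := h3
    have h8 : 2 / (K : ℝ) ^ V = 1 / (K : ℝ) ^ V + 1 / (K : ℝ) ^ V := by ring
    rw [h8] at har
    linarith
  have hinj : Set.InjOn (fun a : ℝ => ⌊a * M⌋₊) (S : Set ℝ) := by
    intro a ha c hc hac
    by_contra hne
    have h2 := hsep a ha c hc hne
    obtain ⟨ha0, ha1, _⟩ := hS a ha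
    obtain ⟨hc0, hc1, _⟩ := hS c hc
    simp only at hac
    have e1 : (⌊a * M⌋₊ : ℝ) ≤ a * M := Nat.floor_le (by positivity)
    have e2 : a * M < ⌊a * M⌋₊ + 1 := Nat.lt_floor_add_one _
    have e3 : (⌊c * M⌋₊ : ℝ) ≤ c * M := Nat.floor_le (by positivity)
    have e4 : c * M < ⌊c * M⌋₊ + 1 := Nat.lt_floor_add_one _
    rw [← hac] at e3 e4
    have e5 : |a - c| * M < 1 := by
      rw [← abs_of_pos hM0, ← abs_mul, abs_lt]
      constructor <;> nlinarith
    have e6 : 1 / (N : ℝ) * M < 1 := lt_of_le_of_lt (mul_le_mul_of_nonneg_right h2 hM0.le) e5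
    rw [one_div, inv_mul_lt_iff₀ hN0, mul_one] at e6
    have e7 : (N : ℝ) ≤ M := by rw [hMdef]; exact_mod_cast hNM
    linarith
  have hcard : S.card ≤ F * b ^ (K / (E + 1) + 2) := by
    have e1 : S.card ≤ ((range M).filter (fun t => (F * t) % M ∈ US b K (D * (Nat.log b K + 1)))).card := by
      apply card_le_card_of_injOn (fun a : ℝ => ⌊a * M⌋₊)
      · intro a ha
        exact hmem a ha
      · exact hinj
    exact e1.trans ((card_pre F M hF hM1 _).trans (Nat.mul_le_mul_left _ (hent K _ hT)))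
  -- numerics
  have hlogK : (K : ℝ) ≤ 3 * Real.log N := by
    have e1 : (b : ℝ) ^ K ≤ N * (K : ℝ) ^ Cb := by exact_mod_cast hbK
    have e2 : ((K : ℝ) ^ Cb) ^ 2 ≤ (b : ℝ) ^ K := by
      rw [← pow_mul, mul_comm Cb 2]
      exact_mod_cast hKb
    have e3 : (b : ℝ) ^ K ≤ (N : ℝ) ^ 2 := by
      have hp : 0 < (b : ℝ) ^ K := by positivity
      have e4 : ((b : ℝ) ^ K) ^ 2 ≤ (N : ℝ) ^ 2 * (b : ℝ) ^ K := by
        calc ((b : ℝ) ^ K) ^ 2 ≤ (N * (K : ℝ) ^ Cb) ^ 2 := pow_le_pow_left₀ hp.le e1 2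
          _ = (N : ℝ) ^ 2 * ((K : ℝ) ^ Cb) ^ 2 := by ring
          _ ≤ _ := mul_le_mul_of_nonneg_left e2 (by positivity)
      rw [sq ((b : ℝ) ^ K)] at e4
      exact le_of_mul_le_mul_right e4 hp
    have e4 : (K : ℝ) * Real.log b ≤ 2 * Real.log N := by
      have := Real.log_le_log (by positivity) e3
      rw [Real.log_pow, Real.log_pow] at this
      push_cast at this
      exact this
    have e5 : Real.log 2 ≤ Real.log b := Real.log_le_log (by norm_num) (by exact_mod_cast hb)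
    have e6 := Real.log_two_gt_d9
    nlinarith
  have hNn : n1 ≤ N := by
    have e1 : (K : ℝ) ≤ 3 * N := by
      have := Real.log_le_sub_one_of_pos hN0
      linarith
    have e2 : K ≤ 3 * N := by exact_mod_cast e1
    omega
  have hfin := h1 N hNn
  have hbE : (b : ℝ) ^ (K / (E + 1)) ≤ (N : ℝ) ^ (θ / 2) * (K : ℝ) ^ Cb := by
    have hbr : (1 : ℝ) ≤ b := by exact_mod_cast (by omega : 1 ≤ b)
    have e0 : (1 : ℝ) / ((E : ℝ) + 1) ≤ θ / 2 := by
      rw [div_le_div_iff₀ (by positivity) (by norm_num), one_mul]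
      rw [div_le_iff₀ hθ] at hE
      nlinarith
    have e1 : (b : ℝ) ^ (K / (E + 1)) ≤ ((b : ℝ) ^ K) ^ ((1 : ℝ) / ((E : ℝ) + 1)) := by
      rw [← Real.rpow_natCast, ← Real.rpow_natCast, ← Real.rpow_mul (by positivity)]
      apply Real.rpow_le_rpow_of_exponent_le hbr
      rw [mul_one_div, le_div_iff₀ (by positivity)]
      exact_mod_cast Nat.div_mul_le_self K (E + 1)
    have hKC : (1 : ℝ) ≤ (K : ℝ) ^ Cb := one_le_pow₀ (by exact_mod_cast hK1')
    have hNr : (1 : ℝ) ≤ N := by exact_mod_cast hN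
    have e2 : ((b : ℝ) ^ K) ^ ((1 : ℝ) / ((E : ℝ) + 1)) ≤ (N * (K : ℝ) ^ Cb) ^ ((1 : ℝ) / ((E : ℝ) + 1)) :=
      Real.rpow_le_rpow (by positivity) (by exact_mod_cast hbK) (by positivity)
    rw [Real.mul_rpow hN0.le (by positivity)] at e2
    refine e1.trans (e2.trans (mul_le_mul (Real.rpow_le_rpow_of_exponent_le hNr e0) ?_ (by positivity) (by positivity)))
    calc ((K : ℝ) ^ Cb) ^ ((1 : ℝ) / ((E : ℝ) + 1)) ≤ ((K : ℝ) ^ Cb) ^ (1 : ℝ) := by
          apply Real.rpow_le_rpow_of_exponent_le hKC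
          rw [div_le_one (by positivity)]
          have : (0 : ℝ) ≤ E := Nat.cast_nonneg E
          linarith
      _ = _ := Real.rpow_one _
  have hL0 : 0 ≤ Real.log N := Real.log_natCast_nonneg N
  have hKp : (K : ℝ) ^ Cb ≤ 3 ^ (Cb + 1) * Real.log N ^ (Cb + 1) := by
    rw [← mul_pow]
    calc (K : ℝ) ^ Cb ≤ (K : ℝ) ^ (Cb + 1) := pow_le_pow_right₀ (by exact_mod_cast hK1') (by omega)
      _ ≤ _ := pow_le_pow_left₀ hK0.le hlogK _
  have hcr : (S.card : ℝ) ≤ F * (b : ℝ) ^ (K / (E + 1) + 2) := by exact_mod_cast hcard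
  calc (S.card : ℝ) ≤ F * (b : ℝ) ^ (K / (E + 1) + 2) := hcr
    _ = F * (b : ℝ) ^ 2 * (b : ℝ) ^ (K / (E + 1)) := by rw [pow_add]; ring
    _ ≤ F * (b : ℝ) ^ 2 * ((N : ℝ) ^ (θ / 2) * (3 ^ (Cb + 1) * Real.log N ^ (Cb + 1))) := by
        apply mul_le_mul_of_nonneg_left _ (by positivity)
        exact hbE.trans (mul_le_mul_of_nonneg_left hKp (by positivity))
    _ = (N : ℝ) ^ (θ / 2) * (F * (b : ℝ) ^ 2 * 3 ^ (Cb + 1) * Real.log N ^ (Cb + 1)) := by ring
    _ ≤ (N : ℝ) ^ (θ / 2) * (N : ℝ) ^ (θ / 2) := by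
        apply mul_le_mul_of_nonneg_left _ (by positivity)
        exact hfin
    _ = (N : ℝ) ^ θ := by
        rw [← Real.rpow_add hN0]
        congr 1
        ring

end Pool.Agent.Q26.DS
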