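import Pool.Agent.Q26.DS.A

set_option autoImplicit false

/-! Divisor correlations for almost all elements of automatic sets, all shifts in windows. -/

namespace Pool.Agent.Q26.DS
open Finset Polynomial
open Pool.Agent.W93.DG
open Pool.Agent.W93.AU (Law)
open Pool.Agent.H807R2.Dav
open Pool.Agent.TH212.DV
open Pool.Agent.TH212.PS
open Pool.Agent.Y958.SP

lemma log_small (b : ℕ) (hb : 2 ≤ b) (a c : ℕ) : ∃ K1 : ℕ, ∀ K : ℕ, K1 ≤ K → a + c * (Nat.log b K + 1) ≤ K := by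
  have h0 : Filter.Tendsto (fun K : ℕ => ((a : ℝ) + c * (Real.log K / Real.log b + 1)) / K) Filter.atTop (nhds 0) := by
    have e1 : Filter.Tendsto (fun K : ℕ => Real.log (K : ℝ) / (K : ℝ)) Filter.atTop (nhds 0) :=
      (Real.isLittleO_log_id_atTop.tendsto_div_nhds_zero).comp tendsto_natCast_atTop_atTop
    have e2 : Filter.Tendsto (fun K : ℕ => 1 / (K : ℝ)) Filter.atTop (nhds 0) := tendsto_one_div_atTop_nhds_zero_nat
    have e3 := (((e1.div_const (Real.log b)).add e2).const_mul (c : ℝ)).add (e2.const_mul (a : ℝ))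
    rw [zero_div, add_zero, mul_zero, mul_zero, add_zero] at e3
    refine e3.congr (fun K => ?_)
    ring
  have h2 := (h0.eventually (gt_mem_nhds (show (0 : ℝ) < 1 by norm_num))).and (Filter.eventually_ge_atTop 1)
  obtain ⟨K1, hK1⟩ := Filter.eventually_atTop.1 h2
  refine ⟨K1, fun K hK => ?_⟩
  obtain ⟨h3, h4⟩ := hK1 K hK
  have hK0 : (0 : ℝ) < K := by exact_mod_cast h4
  rw [div_lt_one hK0] at h3
  have h5 : (Nat.log b K : ℝ) ≤ Real.log K / Real.log b := by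
    rw [le_div_iff₀ (Real.log_pos (by exact_mod_cast hb)), ← Real.log_pow]
    apply Real.log_le_log (by positivity)
    exact_mod_cast Nat.pow_log_le_self b (by omega)
  have h6 : ((a + c * (Nat.log b K + 1) : ℕ) : ℝ) ≤ K := by
    push_cast
    have : (0 : ℝ) ≤ c := by positivity
    nlinarith
  exact_mod_cast h6

lemma GoodE_mono {t N : ℕ} {P : ℕ → ℝ[X]} {E E' η : ℝ} {h : ℤ} (hE : E ≤ E') (hg : GoodE t N P E η h) : GoodE t N P E' η h :=
  fun x hx => ⟨(hg x hx).1.trans hE, fun hh => ((hg x hx).2 hh).trans (by linarith)⟩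

lemma law_sub {b F D V K : ℕ} (Ω : Finset ℕ) (p : ℕ → ℝ) (Y : ℕ → ℤ) (h : Law b F D V K Ω p Y) :
    Law b F D V K (univ : Finset Ω) (fun i => p i) (fun i => Y i) := by
  refine ⟨fun ω _ => h.nonneg ω ω.2, ?_, fun t ht => ?_⟩
  · rw [Finset.sum_coe_sort Ω p]
    exact h.le_one
  · have h1 := h.char t ht
    rw [Finset.sum_coe_sort Ω (fun ω => ((p ω : ℝ) : ℂ) * ee ((Y ω : ℝ) * ((t : ℝ) / ((b ^ (K + 1) : ℕ) : ℝ))))]
    exact h1

open Classical in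
/-- almost all elements of an automatic set, with all shifts in windows -/
theorem au_main (t : ℕ) (P : ℕ → ℝ[X]) (θ : ℝ) (hθ : 0 < θ) (C : ℕ)
    (hcrit : ∀ (B : ℕ) (η : ℝ), 0 < η → η ≤ 1 → ∃ N₀ : ℕ, ∀ N : ℕ, N₀ ≤ N →
      ∀ (ι : Type) [Fintype ι] (w : ι → ℝ) (v : ι → ℤ), (∀ i, 0 ≤ w i) → ∑ i, w i = 1 → (∀ i, |v i| ≤ B * N) →
      ∀ ρ : ℝ, (N : ℝ) ^ (-θ) ≤ ρ → ρ ≤ 1 → FewLarge w v N ρ ((N : ℝ) ^ θ) →
      ∑ i ∈ univ.filter (fun i : ι => v i ≠ 0 ∧ ¬ GoodE t N P (ρ ^ (1 / 8 : ℝ) * N * Real.log N ^ C) η (v i)), w i ≤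
        ρ ^ (1 / 2 : ℝ) * Real.log N ^ C)
    {σ : Type} [Finite σ] (b : ℕ) (hb : 2 ≤ b) (M : DFA ℕ σ)
    (hS : ∀ k : ℕ, ∃ᶠ N : ℕ in Filter.atTop, Real.log N ^ k < (((range N).filter fun v => Nat.digits b v ∈ M.accepts).card : ℝ))
    (κκ : ℤ) (hκκ : κκ ≠ 0) (Bc A U : ℕ) (η : ℝ) (hη : 0 < η) (hη1 : η ≤ 1) : ∃ N₀ : ℕ, ∀ N, N₀ ≤ N → ∀ cc : ℤ, |cc| ≤ (Bc : ℤ) * N →
      (((range N).filter fun v => Nat.digits b v ∈ M.accepts ∧ ∃ h : ℤ, |(h : ℝ) - ((cc + κκ * v : ℤ) : ℝ)| ≤ Real.log N ^ A ∧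
        h ≠ 0 ∧ ¬ GoodE t N P (N / Real.log N ^ U) η h).card : ℝ) ≤
      (((range N).filter fun v => Nat.digits b v ∈ M.accepts).card : ℝ) / Real.log N ^ U := by
  have := Fintype.ofFinite σ
  obtain ⟨B, C₁, hB2, hC0, hau⟩ := Pool.Agent.Q26.TA.au_lawW b hb M hS κκ
  obtain ⟨B', hB'⟩ : ∃ B', B' = Bc + κκ.natAbs * B + 1 := ⟨_, rfl⟩
  obtain ⟨V', hV'⟩ : ∃ V', V' = 2 * (A + C + U) + 2 := ⟨_, rfl⟩
  obtain ⟨V, hV⟩ : ∃ V, V = 8 * V' := ⟨_, rfl⟩
  obtain ⟨e0, he0⟩ : ∃ e0 : ℕ, 8 * B' * 2 ^ V ≤ B ^ e0 := ⟨8 * B' * 2 ^ V, (Nat.lt_pow_self (by omega)).le⟩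
  obtain ⟨D, N1, h1⟩ := hau (e0 + V) V
  have hF : 1 ≤ B.factorial * κκ.natAbs := Nat.mul_pos (Nat.factorial_pos B) (Int.natAbs_pos.2 hκκ)
  obtain ⟨K0, hfew⟩ := few_of_law B hB2 D (B.factorial * κκ.natAbs) V hF θ hθ (2 * V + 1)
  obtain ⟨N2, hcr⟩ := hcrit B' η hη hη1
  obtain ⟨K1, hK1⟩ := log_small B hB2 e0 V
  obtain ⟨n3, hn3⟩ := ev_pow V (8 ^ V) θ hθ
  obtain ⟨n4, hn4⟩ := ev_pow A 1 1 one_pos
  obtain ⟨C₂, hC₂⟩ := exists_nat_ge C₁
  obtain ⟨m, hm⟩ : ∃ m, m = K0 + K1 + 6 * C₂ + B + B ^ (1 + e0) + 5 := ⟨_, rfl⟩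
  refine ⟨N1 + N2 + n3 + n4 + B ^ (m + 1), fun N hN cc hcc => ?_⟩
  obtain ⟨n, Ω, p, hn1, hn2, hl, hΩ, hp0, hp1, hmem⟩ := h1 N (by omega)
  have hpB : 0 < B ^ (m + 1) := Nat.pow_pos (by omega)
  have hmn : m < n + 1 := by
    have e1 : B ^ (m + 1) < B ^ (n + 1) := lt_of_le_of_lt (by omega) hn2
    have := (Nat.pow_lt_pow_iff_right (by omega : 1 < B)).1 e1
    omega
  obtain ⟨e, he⟩ : ∃ e, e = e0 + V * (Nat.log B (n + 1) + 1) := ⟨_, rfl⟩
  obtain ⟨K, hK⟩ : ∃ K, K = n + 1 + e := ⟨_, rfl⟩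
  have hen : e ≤ n + 1 := by rw [he]; exact hK1 (n + 1) (by omega)
  have hK2 : K ≤ 2 * (n + 1) := by omega
  have hlogmono : Nat.log B (n + 1) ≤ Nat.log B (n + 1 + e) := Nat.log_mono_right (by omega)
  have heW : e ≤ (e0 + V) * (Nat.log B (n + 1 + e) + 1) := by
    have e1 : e0 ≤ e0 * (Nat.log B (n + 1 + e) + 1) := Nat.le_mul_of_pos_right _ (by omega)
    have e2 : V * (Nat.log B (n + 1) + 1) ≤ V * (Nat.log B (n + 1 + e) + 1) := Nat.mul_le_mul_left _ (by omega)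
    rw [he] at e1 e2 ⊢
    rw [Nat.add_mul]
    omega
  have hN1 : 1 ≤ N := by omega
  have hK1' : 1 ≤ K := by omega
  have hNr : (1 : ℝ) ≤ N := by exact_mod_cast hN1
  have hN0 : (0 : ℝ) < N := by linarith
  have hKr : (1 : ℝ) ≤ K := by exact_mod_cast hK1'
  have hK0r : (0 : ℝ) < K := by linarith
  have hpB1 : B ^ (Nat.log B (n + 1) + 1) ≤ K * B := by
    rw [pow_succ]
    exact Nat.mul_le_mul_right _ ((Nat.pow_log_le_self B (by omega)).trans (by omega))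
  have hBK : B ≤ K := by omega
  have hBe : B ^ e = B ^ e0 * (B ^ (Nat.log B (n + 1) + 1)) ^ V := by
    rw [he, pow_add, mul_comm V, pow_mul]
  have hc1 : B ^ K ≤ N * K ^ (2 * V + 1) := by
    rw [hK, show n + 1 + e = n + (1 + e) by ring, pow_add]
    apply Nat.mul_le_mul hn1
    rw [pow_add, hBe, ← mul_assoc, ← pow_add]
    have e1 : (B ^ (Nat.log B (n + 1) + 1)) ^ V ≤ (K * K) ^ V := Nat.pow_le_pow_left (hpB1.trans (Nat.mul_le_mul_left _ hBK)) V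
    have e2 : B ^ (1 + e0) ≤ K := by omega
    calc B ^ (1 + e0) * (B ^ (Nat.log B (n + 1) + 1)) ^ V ≤ K * (K * K) ^ V := Nat.mul_le_mul e2 e1
      _ = K ^ (2 * V + 1) := by rw [pow_succ, pow_mul, sq]; ring
      _ ≤ (n + (1 + e)) ^ (2 * V + 1) := by
          apply Nat.pow_le_pow_left
          omega
  have hc2 : 8 * B' * N * K ^ V ≤ B ^ (K + 1) := by
    have e1 : K ^ V ≤ 2 ^ V * (B ^ (Nat.log B (n + 1) + 1)) ^ V := by
      rw [← mul_pow]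
      apply Nat.pow_le_pow_left
      have h9 : n + 1 < B ^ (Nat.log B (n + 1) + 1) := Nat.lt_pow_succ_log_self (by omega) (n + 1)
      omega
    calc 8 * B' * N * K ^ V ≤ 8 * B' * N * (2 ^ V * (B ^ (Nat.log B (n + 1) + 1)) ^ V) := Nat.mul_le_mul_left _ e1
      _ = N * ((8 * B' * 2 ^ V) * (B ^ (Nat.log B (n + 1) + 1)) ^ V) := by ring
      _ ≤ B ^ (n + 1) * (B ^ e0 * (B ^ (Nat.log B (n + 1) + 1)) ^ V) :=
          Nat.mul_le_mul hn2.le (Nat.mul_le_mul_right _ he0)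
      _ = B ^ K := by rw [← hBe, ← pow_add, hK]
      _ ≤ B ^ (K + 1) := Nat.pow_le_pow_right (by omega) (by omega)
  have hc3 : N ≤ B ^ (K + 1) := hn2.le.trans (Nat.pow_le_pow_right (by omega) (by omega))
  -- logarithms
  have hL0 : 0 ≤ Real.log N := Real.log_natCast_nonneg N
  have hLK : Real.log N ≤ (K : ℝ) ^ 2 := by
    have e1 : Real.log N ≤ Real.log ((B : ℝ) ^ (n + 1)) := Real.log_le_log hN0 (by exact_mod_cast hn2.le)
    rw [Real.log_pow] at e1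
    have e2 : Real.log B ≤ B := (Real.log_le_sub_one_of_pos (by positivity)).trans (by linarith)
    have e3 : ((n + 1 : ℕ) : ℝ) ≤ K := by exact_mod_cast (by omega : n + 1 ≤ K)
    have e4 : (B : ℝ) ≤ K := by exact_mod_cast hBK
    calc Real.log N ≤ ((n + 1 : ℕ) : ℝ) * Real.log B := e1
      _ ≤ K * K := mul_le_mul e3 (e2.trans e4) (Real.log_natCast_nonneg B) hK0r.le
      _ = _ := (sq _).symm
  have hKL : (K : ℝ) ≤ 8 * Real.log N := by
    have e1 : Real.log ((B : ℝ) ^ n) ≤ Real.log N := Real.log_le_log (by positivity) (by exact_mod_cast hn1)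
    rw [Real.log_pow] at e1
    have e2 : Real.log 2 ≤ Real.log B := Real.log_le_log (by norm_num) (by exact_mod_cast hB2)
    have e3 := Real.log_two_gt_d9
    have e4 : (K : ℝ) ≤ 4 * n := by exact_mod_cast (by omega : K ≤ 4 * n)
    have e5 : (0 : ℝ) ≤ n := Nat.cast_nonneg n
    nlinarith
  have hL1 : 1 ≤ Real.log N := by
    have e1 : (8 : ℝ) ≤ K := by
      have : 8 ≤ K := by omega
      exact_mod_cast this
    linarith
  have hLp : ∀ j : ℕ, Real.log N ^ j ≤ (K : ℝ) ^ (2 * j) := by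
    intro j
    rw [pow_mul]
    exact pow_le_pow_left₀ hL0 hLK j
  -- ρ
  obtain ⟨ρ, hρ⟩ : ∃ ρ : ℝ, ρ = 2 / (K : ℝ) ^ V := ⟨_, rfl⟩
  have hρ0 : 0 < ρ := by rw [hρ]; positivity
  have hK2r : (2 : ℝ) ≤ K := by
    have : 2 ≤ K := by omega
    exact_mod_cast this
  have hρ1 : ρ ≤ 1 := by
    rw [hρ, div_le_one (by positivity)]
    calc (2 : ℝ) ≤ K := hK2r
      _ = (K : ℝ) ^ 1 := (pow_one _).symm
      _ ≤ (K : ℝ) ^ V := pow_le_pow_right₀ hKr (by omega)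
  have hρN : (N : ℝ) ^ (-θ) ≤ ρ := by
    rw [hρ, Real.rpow_neg hN0.le, ← one_div, div_le_div_iff₀ (Real.rpow_pos_of_pos hN0 _) (by positivity), one_mul]
    have e1 : (K : ℝ) ^ V ≤ 8 ^ V * Real.log N ^ V := by
      rw [← mul_pow]
      exact pow_le_pow_left₀ hK0r.le hKL V
    have e2 := hn3 N (by omega)
    have e3 : 0 < (N : ℝ) ^ θ := Real.rpow_pos_of_pos hN0 _
    linarith
  have hρ8 : ρ ^ (1 / 8 : ℝ) ≤ 2 / (K : ℝ) ^ V' := by
    have e1 : ρ ≤ (2 / (K : ℝ) ^ V') ^ (8 : ℕ) := by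
      rw [hρ, div_pow, ← pow_mul, mul_comm V' 8, ← hV]
      apply div_le_div_of_nonneg_right _ (by positivity)
      norm_num
    calc ρ ^ (1 / 8 : ℝ) ≤ ((2 / (K : ℝ) ^ V') ^ (8 : ℕ)) ^ (1 / 8 : ℝ) := Real.rpow_le_rpow hρ0.le e1 (by norm_num)
      _ = _ := by
        rw [← Real.rpow_natCast, ← Real.rpow_mul (by positivity)]
        norm_num
  have hρ2 : ρ ^ (1 / 2 : ℝ) ≤ 2 / (K : ℝ) ^ V' :=
    (Real.rpow_le_rpow_of_exponent_ge hρ0 hρ1 (by norm_num)).trans hρ8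
  -- the windows
  obtain ⟨R, hR⟩ : ∃ R : ℕ, R = ⌊Real.log N ^ A⌋₊ := ⟨_, rfl⟩
  have hRle : (R : ℝ) ≤ Real.log N ^ A := by rw [hR]; exact Nat.floor_le (by positivity)
  have hRN : R ≤ N := by
    have e1 := hn4 N (by omega)
    rw [one_mul, Real.rpow_one] at e1
    exact_mod_cast hRle.trans e1
  have hOne : ∀ j ∈ Icc (-(R : ℤ)) R, ∑ v ∈ Ω, (if ((cc + j) + κκ * v ≠ 0 ∧ ¬ GoodE t N P (N / Real.log N ^ U) η ((cc + j) + κκ * v)) then p v else 0) ≤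
      2 / (K : ℝ) ^ V' * Real.log N ^ C := by
    intro j hj
    rw [mem_Icc] at hj
    have hlaw := law_sub Ω p (fun v : ℕ => (cc + j) + κκ * v) (hl e heW (cc + j))
    rw [← hK] at hlaw
    have hv : ∀ i : Ω, |(cc + j) + κκ * (i : ℕ)| ≤ B' * N := by
      intro i
      have hi := hΩ i i.2
      have hiN : ((i : ℕ) : ℤ) ≤ N * B := by
        have e1 : (i : ℕ) ≤ N * B := by
          have e2 : B ^ (n + 1) ≤ N * B := by rw [pow_succ]; exact Nat.mul_le_mul_right _ hn1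
          omega
        exact_mod_cast e1
      have e3 : |cc + j + κκ * (i : ℕ)| ≤ |cc| + |j| + |κκ| * (i : ℕ) := by
        refine (abs_add_le _ _).trans ?_
        rw [abs_mul, abs_of_nonneg (show (0 : ℤ) ≤ ((i : ℕ) : ℤ) by positivity)]
        have := abs_add_le cc j
        linarith
      have e4 : |j| ≤ N := by
        have : |j| ≤ (R : ℤ) := abs_le.2 hj
        have h2 : (R : ℤ) ≤ N := by exact_mod_cast hRN
        linarith
      have e5 : |κκ| * (i : ℕ) ≤ |κκ| * (N * B) := mul_le_mul_of_nonneg_left hiN (abs_nonneg κκ)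
      have e6 : |κκ| = (κκ.natAbs : ℤ) := (Int.natCast_natAbs κκ).symm
      have e7 : ((Bc : ℤ) + |κκ| * B + 1) * N = Bc * N + |κκ| * (N * B) + N := by ring
      rw [hB']
      push_cast
      rw [e7]
      linarith
    have hfl := hfew K (by omega) N B' hN1 hc1 hc2 hc3 Ω (fun i => p i) (fun i => (cc + j) + κκ * (i : ℕ)) hv hlaw
    rw [← hρ] at hfl
    have h5 := hcr N (by omega) Ω (fun i => p i) (fun i => (cc + j) + κκ * (i : ℕ)) (fun i => hp0 i i.2)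
      (by rw [Finset.sum_coe_sort Ω p]; exact hp1) hv ρ hρN hρ1 hfl
    rw [sum_filter, Finset.sum_coe_sort Ω (fun i => if (cc + j) + κκ * (i : ℕ) ≠ 0 ∧
      ¬ GoodE t N P (ρ ^ (1 / 8 : ℝ) * N * Real.log N ^ C) η ((cc + j) + κκ * (i : ℕ)) then p i else 0)] at h5
    refine (sum_le_sum fun v hv => ?_).trans (h5.trans (mul_le_mul_of_nonneg_right hρ2 (by positivity)))
    have himp : ((cc + j) + κκ * v ≠ 0 ∧ ¬ GoodE t N P (N / Real.log N ^ U) η ((cc + j) + κκ * v)) →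
        ((cc + j) + κκ * v ≠ 0 ∧ ¬ GoodE t N P (ρ ^ (1 / 8 : ℝ) * N * Real.log N ^ C) η ((cc + j) + κκ * v)) := by
      rintro ⟨a1, a2⟩
      refine ⟨a1, fun hg => a2 (GoodE_mono ?_ hg)⟩
      rw [le_div_iff₀ (by positivity)]
      have e1 : ρ ^ (1 / 8 : ℝ) * (Real.log N ^ C * Real.log N ^ U) ≤ 1 := by
        calc ρ ^ (1 / 8 : ℝ) * (Real.log N ^ C * Real.log N ^ U) ≤ 2 / (K : ℝ) ^ V' * ((K : ℝ) ^ (2 * C) * (K : ℝ) ^ (2 * U)) :=
              mul_le_mul hρ8 (mul_le_mul (hLp C) (hLp U) (by positivity) (by positivity)) (by positivity) (by positivity)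
          _ ≤ 1 := by
              rw [div_mul_eq_mul_div, div_le_one (by positivity)]
              calc (2 : ℝ) * ((K : ℝ) ^ (2 * C) * (K : ℝ) ^ (2 * U)) ≤ K * ((K : ℝ) ^ (2 * C) * (K : ℝ) ^ (2 * U)) :=
                    mul_le_mul_of_nonneg_right hK2r (by positivity)
                _ = (K : ℝ) ^ (1 + 2 * C + 2 * U) := by rw [pow_add, pow_add, pow_one]; ring
                _ ≤ (K : ℝ) ^ V' := pow_le_pow_right₀ hKr (by omega)
      calc ρ ^ (1 / 8 : ℝ) * N * Real.log N ^ C * Real.log N ^ U = N * (ρ ^ (1 / 8 : ℝ) * (Real.log N ^ C * Real.log N ^ U)) := by ring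
        _ ≤ N * 1 := mul_le_mul_of_nonneg_left e1 hN0.le
        _ = N := mul_one _
    by_cases hb1 : ((cc + j) + κκ * v ≠ 0 ∧ ¬ GoodE t N P (N / Real.log N ^ U) η ((cc + j) + κκ * v))
    · rw [if_pos hb1, if_pos (himp hb1)]
    · rw [if_neg hb1]
      split_ifs
      · exact hp0 v hv
      · exact le_rfl
  -- the count
  obtain ⟨Ac, hAc⟩ : ∃ Ac : Finset ℕ, Ac = (range N).filter fun v => Nat.digits b v ∈ M.accepts := ⟨_, rfl⟩
  rw [← hAc] at hmem ⊢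
  have hAc0 : (0 : ℝ) ≤ Ac.card := Nat.cast_nonneg _
  obtain ⟨Bad, hBad⟩ : ∃ Bad : Finset ℕ, Bad = (range N).filter fun v => Nat.digits b v ∈ M.accepts ∧
      ∃ h : ℤ, |(h : ℝ) - ((cc + κκ * v : ℤ) : ℝ)| ≤ Real.log N ^ A ∧ h ≠ 0 ∧ ¬ GoodE t N P (N / Real.log N ^ U) η h := ⟨_, rfl⟩
  rw [← hBad]
  have hterm : ∀ v ∈ Bad, (1 : ℝ) ≤ C₁ * Ac.card * ∑ j ∈ Icc (-(R : ℤ)) R,
      (if ((cc + j) + κκ * v ≠ 0 ∧ ¬ GoodE t N P (N / Real.log N ^ U) η ((cc + j) + κκ * v)) then p v else 0) := by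
    intro v hv
    rw [hBad, mem_filter, mem_range] at hv
    obtain ⟨hvN, hacc, h, hh1, hh2, hh3⟩ := hv
    obtain ⟨hvΩ, hp⟩ := hmem v hvN hacc
    have hj : h - (cc + κκ * v) ∈ Icc (-(R : ℤ)) R := by
      rw [mem_Icc]
      have e1 : ((|h - (cc + κκ * v)| : ℤ) : ℝ) ≤ Real.log N ^ A := by
        push_cast
        push_cast at hh1
        exact hh1
      have e2 : |h - (cc + κκ * v)| ≤ (R : ℤ) := by
        rw [hR]
        have e3 : ((|h - (cc + κκ * v)|.toNat : ℕ) : ℝ) ≤ Real.log N ^ A := by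
          have : ((|h - (cc + κκ * v)|.toNat : ℕ) : ℤ) = |h - (cc + κκ * v)| := Int.toNat_of_nonneg (abs_nonneg _)
          have h4 : ((|h - (cc + κκ * v)|.toNat : ℕ) : ℝ) = ((|h - (cc + κκ * v)| : ℤ) : ℝ) := by exact_mod_cast this
          rw [h4]
          exact e1
        have e4 : |h - (cc + κκ * v)|.toNat ≤ ⌊Real.log N ^ A⌋₊ := Nat.le_floor e3
        have e5 : |h - (cc + κκ * v)| = ((|h - (cc + κκ * v)|.toNat : ℕ) : ℤ) := (Int.toNat_of_nonneg (abs_nonneg _)).symm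
        rw [e5]
        exact_mod_cast e4
      exact abs_le.1 e2
    have heq : (cc + (h - (cc + κκ * v))) + κκ * v = h := by ring
    have h6 : p v ≤ ∑ j ∈ Icc (-(R : ℤ)) R,
        (if ((cc + j) + κκ * v ≠ 0 ∧ ¬ GoodE t N P (N / Real.log N ^ U) η ((cc + j) + κκ * v)) then p v else 0) := by
      have h7 := single_le_sum (f := fun j : ℤ => if ((cc + j) + κκ * v ≠ 0 ∧ ¬ GoodE t N P (N / Real.log N ^ U) η ((cc + j) + κκ * v))
        then p v else 0) (fun j _ => by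
          split_ifs
          · exact hp0 v hvΩ
          · exact le_rfl) hj
      refine le_trans ?_ h7
      rw [heq, if_pos ⟨hh2, hh3⟩]
    exact hp.trans (mul_le_mul_of_nonneg_left h6 (by positivity))
  have hBΩ : Bad ⊆ Ω := by
    intro v hv
    rw [hBad, mem_filter, mem_range] at hv
    exact (hmem v hv.1 hv.2.1).1
  have hsum : (Bad.card : ℝ) ≤ C₁ * Ac.card * ((2 * R + 1 : ℕ) * (2 / (K : ℝ) ^ V' * Real.log N ^ C)) := by
    calc (Bad.card : ℝ) = ∑ v ∈ Bad, (1 : ℝ) := by rw [sum_const, nsmul_eq_mul, mul_one]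
      _ ≤ ∑ v ∈ Bad, C₁ * Ac.card * ∑ j ∈ Icc (-(R : ℤ)) R,
          (if ((cc + j) + κκ * v ≠ 0 ∧ ¬ GoodE t N P (N / Real.log N ^ U) η ((cc + j) + κκ * v)) then p v else 0) := sum_le_sum hterm
      _ = C₁ * Ac.card * ∑ v ∈ Bad, ∑ j ∈ Icc (-(R : ℤ)) R,
          (if ((cc + j) + κκ * v ≠ 0 ∧ ¬ GoodE t N P (N / Real.log N ^ U) η ((cc + j) + κκ * v)) then p v else 0) := by rw [mul_sum]
      _ ≤ C₁ * Ac.card * ∑ v ∈ Ω, ∑ j ∈ Icc (-(R : ℤ)) R,
          (if ((cc + j) + κκ * v ≠ 0 ∧ ¬ GoodE t N P (N / Real.log N ^ U) η ((cc + j) + κκ * v)) then p v else 0) := by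
          apply mul_le_mul_of_nonneg_left _ (by positivity)
          apply sum_le_sum_of_subset_of_nonneg hBΩ
          intro v hv _
          apply sum_nonneg
          intro j _
          split_ifs
          · exact hp0 v hv
          · exact le_rfl
      _ = C₁ * Ac.card * ∑ j ∈ Icc (-(R : ℤ)) R, ∑ v ∈ Ω,
          (if ((cc + j) + κκ * v ≠ 0 ∧ ¬ GoodE t N P (N / Real.log N ^ U) η ((cc + j) + κκ * v)) then p v else 0) := by rw [sum_comm]
      _ ≤ C₁ * Ac.card * ∑ j ∈ Icc (-(R : ℤ)) R, (2 / (K : ℝ) ^ V' * Real.log N ^ C) := by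
          apply mul_le_mul_of_nonneg_left _ (by positivity)
          exact sum_le_sum hOne
      _ = _ := by
          rw [sum_const, nsmul_eq_mul, Int.card_Icc]
          congr 3
          omega
  refine hsum.trans ?_
  rw [le_div_iff₀ (by positivity)]
  have hR3 : ((2 * R + 1 : ℕ) : ℝ) ≤ 3 * (K : ℝ) ^ (2 * A) := by
    have e1 := hRle.trans (hLp A)
    have e2 : (1 : ℝ) ≤ (K : ℝ) ^ (2 * A) := one_le_pow₀ hKr
    push_cast
    linarith
  have hCK : C₁ * 6 ≤ K := by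
    have e1 : ((6 * C₂ : ℕ) : ℝ) ≤ K := by exact_mod_cast (by omega : 6 * C₂ ≤ K)
    push_cast at e1
    linarith
  calc C₁ * Ac.card * (((2 * R + 1 : ℕ) : ℝ) * (2 / (K : ℝ) ^ V' * Real.log N ^ C)) * Real.log N ^ U
      ≤ C₁ * Ac.card * ((3 * (K : ℝ) ^ (2 * A)) * (2 / (K : ℝ) ^ V' * (K : ℝ) ^ (2 * C))) * (K : ℝ) ^ (2 * U) := by
        apply mul_le_mul _ (hLp U) (by positivity) (by positivity)
        apply mul_le_mul_of_nonneg_left _ (by positivity)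
        exact mul_le_mul hR3 (mul_le_mul_of_nonneg_left (hLp C) (by positivity)) (by positivity) (by positivity)
    _ = Ac.card * ((C₁ * 6) * ((K : ℝ) ^ (2 * A) * (K : ℝ) ^ (2 * C) * (K : ℝ) ^ (2 * U)) / (K : ℝ) ^ V') := by ring
    _ ≤ Ac.card * 1 := by
        apply mul_le_mul_of_nonneg_left _ hAc0
        rw [div_le_one (by positivity)]
        calc (C₁ * 6) * ((K : ℝ) ^ (2 * A) * (K : ℝ) ^ (2 * C) * (K : ℝ) ^ (2 * U))
            ≤ K * ((K : ℝ) ^ (2 * A) * (K : ℝ) ^ (2 * C) * (K : ℝ) ^ (2 * U)) := mul_le_mul_of_nonneg_right hCK (by positivity)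
          _ = (K : ℝ) ^ (1 + 2 * A + 2 * C + 2 * U) := by rw [pow_add, pow_add, pow_add, pow_one]; ring
          _ ≤ (K : ℝ) ^ V' := pow_le_pow_right₀ hKr (by omega)
    _ = Ac.card := mul_one _

end Pool.Agent.Q26.DS
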